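import Pool.Agent.K1H22.SR.Stm3

set_option autoImplicit false

/-! Project SR3, piece ADD: additivity of the reflection length over commuting parts -/

namespace Pool.Agent.K1H38.SR2

open Pool.Agent.K1H22.SR

section

variable {B W I : Type} [Group W] {M : CoxeterMatrix B} (cs : CoxeterSystem M W)

/-- repetitions of a word -/
def rep : ℕ → List B → List B
  | 0, _ => []
  | n + 1, ω => ω ++ rep n ω

theorem wordProd_rep (n : ℕ) (ω : List B) : cs.wordProd (rep n ω) = cs.wordProd ω ^ n := by
  induction n with
  | zero => simp [rep]
  | succ n ih => rw [rep, cs.wordProd_append, ih, pow_succ']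

theorem filter_rep (p : B → Bool) (n : ℕ) (ω : List B) :
    (rep n ω).filter p = rep n (ω.filter p) := by
  induction n with
  | zero => simp [rep]
  | succ n ih => rw [rep, rep, List.filter_append, ih]

theorem rl_ne (w : W) : {n : ℕ | ∃ l : List W, l.length = n ∧ (∀ t ∈ l, cs.IsReflection t) ∧
    l.prod = w}.Nonempty := by
  obtain ⟨ω, rfl⟩ := cs.wordProd_surjective w
  refine ⟨_, ω.map cs.simple, rfl, ?_, rfl⟩
  intro t ht
  obtain ⟨b, _, rfl⟩ := List.mem_map.1 ht
  exact cs.isReflection_simple b

theorem rl_mul (x y : W) : rl cs (x * y) ≤ rl cs x + rl cs y := by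
  obtain ⟨l, h1, h2, h3⟩ := Nat.sInf_mem (rl_ne cs x)
  obtain ⟨l', h1', h2', h3'⟩ := Nat.sInf_mem (rl_ne cs y)
  refine Nat.sInf_le ⟨l ++ l', ?_, ?_, ?_⟩
  · rw [List.length_append, h1, h1']
    rfl
  · intro t ht
    rcases List.mem_append.1 ht with ht | ht
    · exact h2 t ht
    · exact h2' t ht
  · rw [List.prod_append, h3, h3']

theorem rl_one : rl cs 1 = 0 := by
  have : rl cs 1 ≤ 0 := Nat.sInf_le ⟨[], rfl, by simp, rfl⟩
  omega

theorem comm_simple {b b' : B} (h : M b b' = 2) : Commute (cs.simple b) (cs.simple b') := by
  have h1 := cs.simple_mul_simple_pow b b'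
  rw [h, pow_two] at h1
  have h2 : cs.simple b * cs.simple b' = (cs.simple b * cs.simple b')⁻¹ :=
    eq_inv_of_mul_eq_one_left h1
  rw [mul_inv_rev] at h2
  have e : ∀ b : B, (cs.simple b)⁻¹ = cs.simple b := fun b => by simp
  rw [e, e] at h2
  exact h2

variable [DecidableEq I] {c : B → I} (hc : ∀ b b', c b ≠ c b' → M b b' = 2)

include hc

theorem comm_word {b : B} {l : List B} (h : ∀ b' ∈ l, c b ≠ c b') :
    Commute (cs.simple b) (cs.wordProd l) := by
  induction l with
  | nil => simp
  | cons a l ih =>
    rw [cs.wordProd_cons]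
    exact (comm_simple cs (hc _ _ (h a (by simp)))).mul_right (ih fun b' hb' => h b' (by simp [hb']))

theorem split {A : Finset I} {a : I} (ha : a ∉ A) (ω : List B) :
    cs.wordProd (ω.filter fun b => c b ∈ insert a A) =
      cs.wordProd (ω.filter fun b => c b = a) * cs.wordProd (ω.filter fun b => c b ∈ A) := by
  induction ω with
  | nil => simp
  | cons b ω ih =>
    by_cases h1 : c b = a
    · have h2 : c b ∉ A := by rw [h1]; exact ha
      rw [List.filter_cons_of_pos (by simp [h1]), List.filter_cons_of_pos (by simp [h1]),
        List.filter_cons_of_neg (by simp [h2]), cs.wordProd_cons, cs.wordProd_cons, ih, mul_assoc]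
    · by_cases h2 : c b ∈ A
      · rw [List.filter_cons_of_pos (by simp [h2]), List.filter_cons_of_neg (by simp [h1]),
          List.filter_cons_of_pos (by simp [h2]), cs.wordProd_cons, cs.wordProd_cons, ih,
          ← mul_assoc, ← mul_assoc]
        congr 1
        refine comm_word cs hc ?_
        intro b' hb'
        have := (List.mem_filter.1 hb').2
        have h3 : c b' = a := by simpa using this
        rw [h3]
        exact h1
      · rw [List.filter_cons_of_neg (by simp [h1, h2]), List.filter_cons_of_neg (by simp [h1]),
          List.filter_cons_of_neg (by simp [h2]), ih]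

theorem upper (A : Finset I) (ω : List B) :
    rl cs (cs.wordProd (ω.filter fun b => c b ∈ A)) ≤
      ∑ i ∈ A, rl cs (cs.wordProd (ω.filter fun b => c b = i)) := by
  induction A using Finset.induction_on with
  | empty =>
    have : (ω.filter fun b => c b ∈ (∅ : Finset I)) = [] := by
      rw [List.filter_eq_nil_iff]
      intro b _
      simp
    rw [this, cs.wordProd_nil, rl_one]
    exact Nat.zero_le _
  | insert a A ha ih =>
    rw [split cs hc ha, Finset.sum_insert ha]
    exact (rl_mul cs _ _).trans (Nat.add_le_add_left ih _)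

theorem liftable (i : I) : M.IsLiftable fun b => if c b = i then cs.simple b else 1 := by
  intro b b'
  by_cases h1 : c b = i
  · by_cases h2 : c b' = i
    · simp only [h1, h2, if_true]
      exact cs.simple_mul_simple_pow b b'
    · have h3 : M b b' = 2 := hc _ _ (by rw [h1]; exact fun h => h2 h.symm)
      simp only [h1, h2, if_true, if_false, mul_one, h3, pow_two]
      exact cs.simple_mul_simple_self b
  · by_cases h2 : c b' = i
    · have h3 : M b b' = 2 := hc _ _ (by rw [h2]; exact h1)
      simp only [h1, h2, if_true, if_false, one_mul, h3, pow_two]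
      exact cs.simple_mul_simple_self b'
    · simp only [h1, h2, if_false, one_mul, one_pow]

theorem proj_word (i : I) (v : List B) :
    cs.lift ⟨_, liftable cs hc i⟩ (cs.wordProd v) =
      cs.wordProd (v.filter fun b => c b = i) := by
  induction v with
  | nil => simp
  | cons b v ih =>
    rw [cs.wordProd_cons, map_mul, ih, cs.lift_apply_simple]
    by_cases h1 : c b = i
    · rw [List.filter_cons_of_pos (by simp [h1]), cs.wordProd_cons, if_pos h1]
    · rw [List.filter_cons_of_neg (by simp [h1]), if_neg h1, one_mul]

omit hc in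
theorem sum_len [Fintype I] (v : List B) : ∑ i, (v.filter fun b => c b = i).length = v.length := by
  induction v with
  | nil => simp
  | cons b v ih =>
    have h1 : ∀ i : I, ((b :: v).filter fun b => c b = i).length =
        (if c b = i then 1 else 0) + (v.filter fun b => c b = i).length := by
      intro i
      by_cases h : c b = i
      · rw [List.filter_cons_of_pos (by simp [h]), if_pos h, List.length_cons, add_comm]
      · rw [List.filter_cons_of_neg (by simp [h]), if_neg h, zero_add]
    rw [Finset.sum_congr rfl fun i _ => h1 i, Finset.sum_add_distrib, ih, List.length_cons]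
    simp [add_comm]

end

/-- the case of exponent one -/
theorem add_one (h : S_DYER) (B W I : Type) [Fintype B] [DecidableEq B] [Fintype I]
    [DecidableEq I] [Group W] (M : CoxeterMatrix B) (cs : CoxeterSystem M W) (c : B → I)
    (hc : ∀ b b', c b ≠ c b' → M b b' = 2) (ω : List B) :
    rl cs (cs.wordProd ω) = ∑ i, rl cs (cs.wordProd (ω.filter (fun b => c b = i))) := by
  apply le_antisymm
  · have h1 := upper cs hc Finset.univ ω
    have h2 : (ω.filter fun b => c b ∈ (Finset.univ : Finset I)) = ω := by
      rw [List.filter_eq_self]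
      intro b _
      simp
    rw [h2] at h1
    exact h1
  · obtain ⟨u, hu1, hu2, hu3⟩ := (h B W M cs ω).2
    have h1 : ∀ i : I, rl cs (cs.wordProd (ω.filter (fun b => c b = i))) +
        (u.filter fun b => c b = i).length ≤ (ω.filter (fun b => c b = i)).length := by
      intro i
      refine (h B W M cs (ω.filter (fun b => c b = i))).1 _ (hu1.filter _) ?_
      rw [← proj_word cs hc i u, hu2, map_one]
    have h2 := Finset.sum_le_sum fun (i : I) (_ : i ∈ Finset.univ) => h1 i
    rw [Finset.sum_add_distrib, sum_len, sum_len] at h2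
    omega

theorem t_ADD (h : S_DYER) : Pool.Agent.K1H22.SR2.S_ADD := by
  intro B W I _ _ _ _ _ M cs c hc ω n
  rw [← wordProd_rep, add_one h B W I M cs c hc (rep n ω)]
  refine Finset.sum_congr rfl fun i _ => ?_
  rw [filter_rep, wordProd_rep]

end Pool.Agent.K1H38.SR2
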