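import Pool.Agent.K1H22.SR.Stm2

set_option autoImplicit false

/-! Project SR2, piece SLOPE2: the extremal slope of a semilinear set is rational -/

namespace Pool.Agent.K1H38.SR2

open Filter Topology

theorem tend (s : ℝ) (x : ℝ) :
    Tendsto (fun k : ℕ => (s + 1 / ((k : ℝ) + 1)) * x) atTop (𝓝 (s * x)) := by
  have h := (tendsto_one_div_add_atTop_nhds_zero_nat (𝕜 := ℝ)).const_add s
  rw [add_zero] at h
  exact h.mul_const x

/-- a linear set -/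
theorem lin {s : ℝ} {a : ℕ × ℕ} {t : Set (ℕ × ℕ)} (ht : t.Finite)
    (hs : ¬ ∃ q : ℚ, s = (q : ℝ))
    (h : ∀ y ∈ AddSubmonoid.closure t, s * ((a + y).1 : ℝ) ≤ ((a + y).2 : ℝ)) :
    ∀ᶠ k : ℕ in atTop, ∀ y ∈ AddSubmonoid.closure t, k ≤ (a + y).1 →
      (s + 1 / ((k : ℝ) + 1)) * ((a + y).1 : ℝ) < ((a + y).2 : ℝ) := by
  -- the periods
  have h1 : ∀ x ∈ t, s * (x.1 : ℝ) ≤ (x.2 : ℝ) := by
    intro x hx
    by_contra hcon
    push Not at hcon
    have hδ : 0 < s * (x.1 : ℝ) - x.2 := by linarith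
    obtain ⟨k, hk⟩ := exists_nat_gt (((a.2 : ℝ) - s * a.1) / (s * (x.1 : ℝ) - x.2))
    rw [div_lt_iff₀ hδ] at hk
    have h2 := h (k • x) (AddSubmonoid.nsmul_mem _ (AddSubmonoid.subset_closure hx) k)
    simp only [Prod.fst_add, Prod.snd_add, Prod.smul_fst, Prod.smul_snd, smul_eq_mul] at h2
    push_cast at h2
    nlinarith
  have h2 : ∀ x ∈ t, ∀ᶠ k : ℕ in atTop, (s + 1 / ((k : ℝ) + 1)) * (x.1 : ℝ) ≤ (x.2 : ℝ) := by
    intro x hx
    rcases Nat.eq_zero_or_pos x.1 with h0 | h0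
    · refine Eventually.of_forall fun k => ?_
      rw [h0]
      simp
    · have h3 : s * (x.1 : ℝ) < (x.2 : ℝ) := by
        refine lt_of_le_of_ne (h1 x hx) fun he => hs ⟨(x.2 : ℚ) / (x.1 : ℚ), ?_⟩
        have : (x.1 : ℝ) ≠ 0 := by positivity
        push_cast
        field_simp
        exact he
      have h4 := (tend s x.1).eventually_lt_const h3
      exact h4.mono fun k hk => hk.le
  obtain ⟨k0, hk0⟩ := ((Filter.eventually_all_finite ht).2 h2).exists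
  obtain ⟨δ, hδ⟩ : ∃ δ : ℝ, δ = 1 / ((k0 : ℝ) + 1) := ⟨_, rfl⟩
  have hδ0 : 0 < δ := by
    rw [hδ]
    positivity
  rw [← hδ] at hk0
  have h3 : ∀ y ∈ AddSubmonoid.closure t, (s + δ) * (y.1 : ℝ) ≤ (y.2 : ℝ) := by
    intro y hy
    induction hy using AddSubmonoid.closure_induction with
    | mem x hx => exact hk0 x hx
    | zero => simp
    | add x y _ _ h4 h5 =>
      simp only [Prod.fst_add, Prod.snd_add]
      push_cast
      rw [mul_add]
      linarith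
  have e1 : ∀ᶠ k : ℕ in atTop, 1 / ((k : ℝ) + 1) < δ / 2 :=
    (tendsto_one_div_add_atTop_nhds_zero_nat (𝕜 := ℝ)).eventually_lt_const (by positivity)
  have e2 : ∀ᶠ k : ℕ in atTop, |(s + δ) * (a.1 : ℝ)| / (δ / 2) < (k : ℝ) :=
    tendsto_natCast_atTop_atTop.eventually_gt_atTop _
  filter_upwards [e1, e2] with k hk1 hk2 y hy hky
  rw [div_lt_iff₀ (by positivity)] at hk2
  have h4 := h3 y hy
  have h5 := le_abs_self ((s + δ) * (a.1 : ℝ))
  have h6 : (k : ℝ) ≤ ((a + y).1 : ℝ) := by exact_mod_cast hky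
  have e3 : ((a + y).1 : ℝ) = a.1 + y.1 := by
    simp only [Prod.fst_add]
    push_cast
    rfl
  have e4 : ((a + y).2 : ℝ) = a.2 + y.2 := by
    simp only [Prod.snd_add]
    push_cast
    rfl
  have h7 : (0 : ℝ) ≤ a.2 := by positivity
  have h8 : (s + δ) * ((a + y).1 : ℝ) ≤ |(s + δ) * (a.1 : ℝ)| + ((a + y).2 : ℝ) := by
    rw [e3, e4, mul_add]
    linarith
  have h9 : (0 : ℝ) ≤ ((a + y).1 : ℝ) := by positivity
  have h10 : (k : ℝ) * (δ / 2) ≤ ((a + y).1 : ℝ) * (δ / 2) :=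
    mul_le_mul_of_nonneg_right h6 (by positivity)
  have h11 : (1 / ((k : ℝ) + 1)) * ((a + y).1 : ℝ) ≤ (δ / 2) * ((a + y).1 : ℝ) :=
    mul_le_mul_of_nonneg_right hk1.le h9
  calc (s + 1 / ((k : ℝ) + 1)) * ((a + y).1 : ℝ)
      = s * ((a + y).1 : ℝ) + (1 / ((k : ℝ) + 1)) * ((a + y).1 : ℝ) := by ring
    _ ≤ s * ((a + y).1 : ℝ) + (δ / 2) * ((a + y).1 : ℝ) := by linarith
    _ = (s + δ) * ((a + y).1 : ℝ) - ((a + y).1 : ℝ) * (δ / 2) := by ring
    _ < ((a + y).2 : ℝ) := by linarith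

theorem t_SLOPE2 : Pool.Agent.K1H22.SR2.S_SLOPE2 := by
  intro D s hD h1 h2
  by_contra hs
  obtain ⟨S, hSf, hSl, rfl⟩ := hD
  have h3 : ∀ L ∈ S, ∀ᶠ k : ℕ in atTop, ∀ n d : ℕ, (n, d) ∈ L → k ≤ n →
      (s + 1 / ((k : ℝ) + 1)) * (n : ℝ) < (d : ℝ) := by
    intro L hL
    obtain ⟨a, t, ht, rfl⟩ := hSl L hL
    have h4 := lin (a := a) ht hs (by
      intro y hy
      apply h1
      exact Set.mem_sUnion.2 ⟨_, hL, Set.mem_vadd_set.2 ⟨y, hy, rfl⟩⟩)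
    filter_upwards [h4] with k hk n d hnd hkn
    obtain ⟨y, hy, hye⟩ := Set.mem_vadd_set.1 hnd
    have hye' : a + y = (n, d) := hye
    have := hk y hy (by rw [hye']; exact hkn)
    rw [hye'] at this
    exact this
  obtain ⟨k, hk⟩ := ((Filter.eventually_all_finite hSf).2 h3).exists
  obtain ⟨n, d, hkn, hnd, hle⟩ := h2 (1 / ((k : ℝ) + 1)) (by positivity) k
  obtain ⟨L, hL, hndL⟩ := Set.mem_sUnion.1 hnd
  exact absurd (hk L hL n d hndL hkn) (not_lt.2 hle)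

end Pool.Agent.K1H38.SR2
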