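import Pool.Agent.K1H22.SR.Stm4
import Pool.Agent.K1H38.SR2.Slope2

set_option autoImplicit false

/-! Project SR2, piece QL1: quasi-linearity, first half -/

namespace Pool.Agent.K1H38.SR2

open Filter Topology
open scoped Pointwise

/-- a linear set without good periods -/
theorem lin2 {s : ℝ} {a : ℕ × ℕ} {t : Set (ℕ × ℕ)} (ht : t.Finite)
    (hs : ∀ x ∈ t, 0 < x.1 → s * (x.1 : ℝ) ≠ (x.2 : ℝ))
    (h : ∀ y ∈ AddSubmonoid.closure t, s * ((a + y).1 : ℝ) ≤ ((a + y).2 : ℝ)) :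
    ∀ᶠ k : ℕ in atTop, ∀ y ∈ AddSubmonoid.closure t, k ≤ (a + y).1 →
      (s + 1 / ((k : ℝ) + 1)) * ((a + y).1 : ℝ) < ((a + y).2 : ℝ) := by
  -- the periods
  have h1 : ∀ x ∈ t, s * (x.1 : ℝ) ≤ (x.2 : ℝ) := by
    intro x hx
    by_contra hcon
    push Not at hcon
    have hδ : 0 < s * (x.1 : ℝ) - x.2 := by linarith
    obtain ⟨k, hk⟩ := exists_nat_gt (((a.2 : ℝ) - s * a.1) / (s * (x.1 : ℝ) - x.2))
    rw [div_lt_iff₀ hδ] at hk
    have h2 := h (k • x) (AddSubmonoid.nsmul_mem _ (AddSubmonoid.subset_closure hx) k)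
    simp only [Prod.fst_add, Prod.snd_add, Prod.smul_fst, Prod.smul_snd, smul_eq_mul] at h2
    push_cast at h2
    nlinarith
  have h2 : ∀ x ∈ t, ∀ᶠ k : ℕ in atTop, (s + 1 / ((k : ℝ) + 1)) * (x.1 : ℝ) ≤ (x.2 : ℝ) := by
    intro x hx
    rcases Nat.eq_zero_or_pos x.1 with h0 | h0
    · refine Eventually.of_forall fun k => ?_
      rw [h0]
      simp
    · have h3 : s * (x.1 : ℝ) < (x.2 : ℝ) := lt_of_le_of_ne (h1 x hx) (hs x hx h0)
      have h4 := (tend s x.1).eventually_lt_const h3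
      exact h4.mono fun k hk => hk.le
  obtain ⟨k0, hk0⟩ := ((Filter.eventually_all_finite ht).2 h2).exists
  obtain ⟨δ, hδ⟩ : ∃ δ : ℝ, δ = 1 / ((k0 : ℝ) + 1) := ⟨_, rfl⟩
  have hδ0 : 0 < δ := by
    rw [hδ]
    positivity
  rw [← hδ] at hk0
  have h3 : ∀ y ∈ AddSubmonoid.closure t, (s + δ) * (y.1 : ℝ) ≤ (y.2 : ℝ) := by
    intro y hy
    induction hy using AddSubmonoid.closure_induction with
    | mem x hx => exact hk0 x hx
    | zero => simp
    | add x y _ _ h4 h5 =>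
      simp only [Prod.fst_add, Prod.snd_add]
      push_cast
      rw [mul_add]
      linarith
  have e1 : ∀ᶠ k : ℕ in atTop, 1 / ((k : ℝ) + 1) < δ / 2 :=
    (tendsto_one_div_add_atTop_nhds_zero_nat (𝕜 := ℝ)).eventually_lt_const (by positivity)
  have e2 : ∀ᶠ k : ℕ in atTop, |(s + δ) * (a.1 : ℝ)| / (δ / 2) < (k : ℝ) :=
    tendsto_natCast_atTop_atTop.eventually_gt_atTop _
  filter_upwards [e1, e2] with k hk1 hk2 y hy hky
  rw [div_lt_iff₀ (by positivity)] at hk2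
  have h4 := h3 y hy
  have h5 := le_abs_self ((s + δ) * (a.1 : ℝ))
  have h6 : (k : ℝ) ≤ ((a + y).1 : ℝ) := by exact_mod_cast hky
  have e3 : ((a + y).1 : ℝ) = a.1 + y.1 := by
    simp only [Prod.fst_add]
    push_cast
    rfl
  have e4 : ((a + y).2 : ℝ) = a.2 + y.2 := by
    simp only [Prod.snd_add]
    push_cast
    rfl
  have h7 : (0 : ℝ) ≤ a.2 := by positivity
  have h8 : (s + δ) * ((a + y).1 : ℝ) ≤ |(s + δ) * (a.1 : ℝ)| + ((a + y).2 : ℝ) := by
    rw [e3, e4, mul_add]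
    linarith
  have h9 : (0 : ℝ) ≤ ((a + y).1 : ℝ) := by positivity
  have h10 : (k : ℝ) * (δ / 2) ≤ ((a + y).1 : ℝ) * (δ / 2) :=
    mul_le_mul_of_nonneg_right h6 (by positivity)
  have h11 : (1 / ((k : ℝ) + 1)) * ((a + y).1 : ℝ) ≤ (δ / 2) * ((a + y).1 : ℝ) :=
    mul_le_mul_of_nonneg_right hk1.le h9
  calc (s + 1 / ((k : ℝ) + 1)) * ((a + y).1 : ℝ)
      = s * ((a + y).1 : ℝ) + (1 / ((k : ℝ) + 1)) * ((a + y).1 : ℝ) := by ring
    _ ≤ s * ((a + y).1 : ℝ) + (δ / 2) * ((a + y).1 : ℝ) := by linarith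
    _ = (s + δ) * ((a + y).1 : ℝ) - ((a + y).1 : ℝ) * (δ / 2) := by ring
    _ < ((a + y).2 : ℝ) := by linarith

/-- closed under a translation -/
def Cl (L : Set (ℕ × ℕ)) (p c : ℕ) : Prop := ∀ n d : ℕ, (n, d) ∈ L → (n + p, d + c) ∈ L

theorem Cl.mul {L : Set (ℕ × ℕ)} {p c : ℕ} (h : Cl L p c) (m : ℕ) : Cl L (p * m) (c * m) := by
  induction m with
  | zero => intro n d hnd; simpa using hnd
  | succ m ih =>
    intro n d hnd
    have := h _ _ (ih n d hnd)
    have e1 : n + p * (m + 1) = n + p * m + p := by ring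
    have e2 : d + c * (m + 1) = d + c * m + c := by ring
    rw [e1, e2]
    exact this

/-- a common translation -/
theorem common {s : ℝ} {p0 c0 : ℕ} (hp0 : 0 < p0) (h0 : (c0 : ℝ) = s * p0)
    {S : Set (Set (ℕ × ℕ))} (hS : S.Finite) :
    ∃ P c : ℕ, 0 < P ∧ (c : ℝ) = s * P ∧ ∀ L ∈ S,
      (∃ p c : ℕ, 0 < p ∧ (c : ℝ) = s * p ∧ Cl L p c) → Cl L P c := by
  induction S, hS using Set.Finite.induction_on with
  | empty => exact ⟨p0, c0, hp0, h0, by simp⟩
  | @insert L S _ _ ih =>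
    obtain ⟨P, c, hP, hc, hcl⟩ := ih
    by_cases hG : ∃ p c : ℕ, 0 < p ∧ (c : ℝ) = s * p ∧ Cl L p c
    · obtain ⟨p, c', hp, hc', hL⟩ := hG
      refine ⟨P * p, c * p, Nat.mul_pos hP hp, ?_, ?_⟩
      · push_cast
        rw [hc]
        ring
      · intro L' hL' hG'
        rcases Set.mem_insert_iff.1 hL' with rfl | hL'
        · have e1 : c * p = c' * P := by
            have : ((c * p : ℕ) : ℝ) = ((c' * P : ℕ) : ℝ) := by
              push_cast
              rw [hc, hc']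
              ring
            exact_mod_cast this
          rw [e1, mul_comm P p]
          exact hL.mul P
        · exact (hcl L' hL' hG').mul p
    · refine ⟨P, c, hP, hc, ?_⟩
      intro L' hL' hG'
      rcases Set.mem_insert_iff.1 hL' with rfl | hL'
      · exact absurd hG' hG
      · exact hcl L' hL' hG'

theorem t_QL1 : Pool.Agent.K1H22.SR2.S_QL1 := by
  intro D f hD hf hmin hsub
  have hsa : Subadditive fun n : ℕ => (f n : ℝ) := by
    intro m n
    show ((f (m + n) : ℕ) : ℝ) ≤ (f m : ℝ) + (f n : ℝ)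
    exact_mod_cast hsub m n
  have hbd : BddBelow (Set.range fun n : ℕ => (f n : ℝ) / n) := by
    refine ⟨0, ?_⟩
    rintro _ ⟨n, rfl⟩
    positivity
  obtain ⟨s, hs⟩ : ∃ s : ℝ, s = hsa.lim := ⟨_, rfl⟩
  have hlim : Tendsto (fun n : ℕ => (f n : ℝ) / n) atTop (𝓝 s) := by
    rw [hs]
    exact hsa.tendsto_lim hbd
  have hle : ∀ n : ℕ, s * n ≤ f n := by
    intro n
    rcases Nat.eq_zero_or_pos n with h0 | h0
    · rw [h0]
      simp
    · have h1 := hsa.lim_le_div hbd (n := n) (by omega)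
      rw [← hs] at h1
      have hn : (0 : ℝ) < n := by exact_mod_cast h0
      rwa [le_div_iff₀ hn] at h1
  have hleD : ∀ n d : ℕ, (n, d) ∈ D → s * n ≤ d := by
    intro n d hnd
    have : (f n : ℝ) ≤ d := by exact_mod_cast hmin n d hnd
    exact (hle n).trans this
  obtain ⟨S, hSf, hSl, rfl⟩ := hD
  have h3 : ∀ L ∈ S, ∀ᶠ k : ℕ in atTop,
      (¬ ∃ p c : ℕ, 0 < p ∧ (c : ℝ) = s * p ∧ Cl L p c) → ∀ n d : ℕ, (n, d) ∈ L → k ≤ n →
      (s + 1 / ((k : ℝ) + 1)) * (n : ℝ) < (d : ℝ) := by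
    intro L hL
    obtain ⟨a, t, ht, rfl⟩ := hSl L hL
    by_cases hG : ∃ p c : ℕ, 0 < p ∧ (c : ℝ) = s * p ∧
        Cl (a +ᵥ (AddSubmonoid.closure t : Set (ℕ × ℕ))) p c
    · exact Eventually.of_forall fun k hk => absurd hG hk
    · have h4 := lin2 (s := s) (a := a) ht (by
        intro x hx hx0 hxe
        refine hG ⟨x.1, x.2, hx0, hxe.symm, ?_⟩
        intro n d hnd
        obtain ⟨y, hy, hye⟩ := Set.mem_vadd_set.1 hnd
        refine Set.mem_vadd_set.2 ⟨y + x, ?_, ?_⟩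
        · exact AddSubmonoid.add_mem _ hy (AddSubmonoid.subset_closure hx)
        · have hye' : a + y = (n, d) := hye
          show a + (y + x) = (n + x.1, d + x.2)
          rw [← add_assoc, hye']
          rfl) (by
        intro y hy
        apply hleD
        exact Set.mem_sUnion.2 ⟨_, hL, Set.mem_vadd_set.2 ⟨y, hy, rfl⟩⟩)
      filter_upwards [h4] with k hk _ n d hnd hkn
      obtain ⟨y, hy, hye⟩ := Set.mem_vadd_set.1 hnd
      have hye' : a + y = (n, d) := hye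
      have := hk y hy (by rw [hye']; exact hkn)
      rw [hye'] at this
      exact this
  obtain ⟨k, hk⟩ := ((Filter.eventually_all_finite hSf).2 h3).exists
  have h5 : ∀ᶠ n : ℕ in atTop, (f n : ℝ) / n < s + 1 / ((k : ℝ) + 1) :=
    hlim.eventually_lt_const (by
      have : (0 : ℝ) < 1 / ((k : ℝ) + 1) := by positivity
      linarith)
  obtain ⟨N, hN⟩ := eventually_atTop.1 (h5.and (eventually_ge_atTop (k + 1)))
  have key : ∀ n, N ≤ n → ∃ L ∈ S, (n, f n) ∈ L ∧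
      ∃ p c : ℕ, 0 < p ∧ (c : ℝ) = s * p ∧ Cl L p c := by
    intro n hn
    obtain ⟨h6, h7⟩ := hN n hn
    obtain ⟨L, hL, hnL⟩ := Set.mem_sUnion.1 (hf n)
    refine ⟨L, hL, hnL, ?_⟩
    by_contra hcon
    have h8 := hk L hL hcon n (f n) hnL (by omega)
    have hn0 : (0 : ℝ) < n := by
      have : 0 < n := by omega
      exact_mod_cast this
    rw [div_lt_iff₀ hn0] at h6
    linarith
  obtain ⟨L0, _, _, p0, c0, hp0, hc0, _⟩ := key N le_rfl
  obtain ⟨P, c, hP, hc, hcl⟩ := common hp0 hc0 hSf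
  refine ⟨P, c, N, hP, ?_, ?_⟩
  · intro n hn
    obtain ⟨L, hL, hnL, hG⟩ := key n hn
    apply hmin
    exact Set.mem_sUnion.2 ⟨L, hL, hcl L hL hG _ _ hnL⟩
  · intro n k
    have hs0 : 0 ≤ s := by
      by_contra hcon
      push Not at hcon
      have hP' : (0 : ℝ) < P := by exact_mod_cast hP
      have h9 : s * P < 0 := mul_neg_of_neg_of_pos hcon hP'
      have h10 : (0 : ℝ) ≤ c := by positivity
      linarith
    have h11 := hle (n + k * P)
    push_cast at h11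
    have h12 : (0 : ℝ) ≤ s * n := mul_nonneg hs0 (by positivity)
    have : ((c * k : ℕ) : ℝ) ≤ f (n + k * P) := by
      push_cast
      rw [hc]
      nlinarith
    exact_mod_cast this

end Pool.Agent.K1H38.SR2
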